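import Pool.Agent.Helper85.IA.St

/-!
# Project IA, part N (nibble): module TSC
-/

set_option autoImplicit false

namespace Pool.Agent.Helper37.IA85

open Finset Pool.Agent.Helper93.IA Pool.Agent.Helper85.IA

private lemma F2_scale {α β γ : Type} [Fintype α] [Fintype β] [Fintype γ] [DecidableEq α]
    [DecidableEq β] [DecidableEq γ] (σ : α × β → Option γ) (z : β → ℝ) (k : ℝ) (c : γ) (a : α) :
    k * F2 σ z 1 1 c a = F2 σ (fun b => k * z b) 1 1 c a := by
  unfold F2
  rw [Finset.mul_sum]
  refine Finset.sum_congr rfl (fun b _ => ?_)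
  ring

theorem hTSC (_hKUB : StKUB) (hLO2 : StLO2) (hMNF : StMNF) : StTSC := by
  intro α β γ _ _ _ _ _ _ Λ ε δ d η n A B C x hΛ hε hε8 hδ hδ4 hη hn hD c a
  have hn' : (0 : ℝ) < n := by exact_mod_cast hn
  have hnΛ : 0 ≤ (n : ℝ) / Λ := by positivity
  -- the bounds for the weights
  have hz0 : ∀ b, 0 ≤ (n : ℝ) / Λ * x a b c := fun b => mul_nonneg hnΛ (hD.x0 a b c)
  have hz1 : ∀ b, (n : ℝ) / Λ * x a b c ≤ 1 := by
    intro b
    have h1 : (n : ℝ) / Λ * x a b c ≤ (n : ℝ) / Λ * (Λ / n) :=
      mul_le_mul_of_nonneg_left (hD.xl a b c) hnΛ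
    have h2 : (n : ℝ) / Λ * (Λ / n) = 1 := by
      field_simp
    linarith
  have hcard : (univ.filter fun p : α × β => p.1 = a).card ≤ 2 * n := by
    have h1 : (univ.filter fun p : α × β => p.1 = a) = ({a} : Finset α) ×ˢ (univ : Finset β) := by
      ext p
      rw [Finset.mem_filter, Finset.mem_product, Finset.mem_singleton]
      exact ⟨fun h => ⟨h.2, Finset.mem_univ _⟩, fun h => ⟨Finset.mem_univ _, h.1⟩⟩
    rw [h1, Finset.card_product, Finset.card_singleton, Finset.card_univ, hD.nβ]
    omega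
  -- the data of MNF
  have hY : Yd ε (ε * Λ / n) (fun a b c => ε * x a b c) := by
    refine ⟨by linarith, fun a b c => mul_nonneg hε.le (hD.x0 a b c), ?_, ?_, ?_, ?_⟩
    · intro a b c
      have h1 : ε * x a b c ≤ ε * (Λ / n) := mul_le_mul_of_nonneg_left (hD.xl a b c) hε.le
      calc ε * x a b c ≤ ε * (Λ / n) := h1
        _ = ε * Λ / n := by ring
    · intro a b
      rw [← Finset.mul_sum]
      have := mul_le_mul_of_nonneg_left (hD.uA a b) hε.le
      linarith
    · intro b c
      rw [← Finset.mul_sum]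
      have := mul_le_mul_of_nonneg_left (hD.uB b c) hε.le
      linarith
    · intro c a
      rw [← Finset.mul_sum]
      have := mul_le_mul_of_nonneg_left (hD.uC c a) hε.le
      linarith
  have hl : 0 ≤ (1 - δ) * ε := mul_nonneg (by linarith) hε.le
  have hM := (hMNF α β γ ε (ε * Λ / n) ((1 - δ) * ε) (fun a b c => ε * x a b c) hε.le hε8 hl
    hY).2.1 c a (fun b => x a b c) (fun b => hD.x0 a b c) (by
      intro b hb
      have hsup := hD.sup a b c hb
      constructor
      · rw [← Finset.mul_sum]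
        have := mul_le_mul_of_nonneg_left (hD.lA a b hsup.1) hε.le
        linarith
      · rw [← Finset.mul_sum]
        have := mul_le_mul_of_nonneg_left (hD.lB b c hsup.2.1) hε.le
        linarith)
  obtain ⟨hlow, hup⟩ := hM
  constructor
  · refine ⟨univ.filter fun p => p.1 = a, ?_, hcard, ?_⟩
    · have h1 : (fun σ : α × β → Option γ => (n : ℝ) / Λ * F2 σ (fun b => x a b c) 1 1 c a)
          = fun σ => F2 σ (fun b => (n : ℝ) / Λ * x a b c) 1 1 c a := by
        funext σ
        exact F2_scale σ _ _ c a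
      rw [h1]
      exact hLO2 α β γ _ 1 1 c a (fun b => by rw [abs_of_nonneg (hz0 b)]; exact hz1 b)
        zero_le_one le_rfl zero_le_one le_rfl
    · have h2 : E (fun a b c => ε * x a b c)
          (fun σ : α × β → Option γ => (n : ℝ) / Λ * F2 σ (fun b => x a b c) 1 1 c a)
          = (n : ℝ) / Λ * E (fun a b c => ε * x a b c)
            (fun σ => F2 σ (fun b => x a b c) 1 1 c a) := Ex_mul _ _
      rw [h2]
      have h3 := mul_le_mul_of_nonneg_left hup hnΛ
      have h4 : (n : ℝ) / Λ * (Λ * η) = η * n := by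
        field_simp
      rw [mul_add, h4]
      linarith
  · refine ⟨univ.filter fun p => p.1 = a, ?_, hcard, ?_⟩
    · have h1 : (fun σ : α × β → Option γ => -((n : ℝ) / Λ) * F2 σ (fun b => x a b c) 1 1 c a)
          = fun σ => F2 σ (fun b => -((n : ℝ) / Λ) * x a b c) 1 1 c a := by
        funext σ
        exact F2_scale σ _ _ c a
      rw [h1]
      refine hLO2 α β γ _ 1 1 c a (fun b => ?_) zero_le_one le_rfl zero_le_one le_rfl
      rw [neg_mul, abs_neg, abs_of_nonneg (hz0 b)]
      exact hz1 b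
    · have h2 : E (fun a b c => ε * x a b c)
          (fun σ : α × β → Option γ => -((n : ℝ) / Λ) * F2 σ (fun b => x a b c) 1 1 c a)
          = -((n : ℝ) / Λ) * E (fun a b c => ε * x a b c)
            (fun σ => F2 σ (fun b => x a b c) 1 1 c a) := Ex_mul _ _
      rw [h2]
      have h3 := mul_le_mul_of_nonneg_left hlow hnΛ
      have h4 : (n : ℝ) / Λ * (Λ * η) = η * n := by
        field_simp
      rw [mul_sub, neg_mul, neg_mul, neg_mul, h4]
      linarith

end Pool.Agent.Helper37.IA85
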